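import Pool.Agent.Lib.MP_b6945b_al.Rd.Fin

set_option autoImplicit false

namespace Pool.Agent.Lib.MP_b6945b_al.Old.Hyperfocal

open Pool.Agent.Lib.MP_b6945b_al

/-- The identity of the problem for the group `G` and the prime `p`, in the frozen form. -/
def KRC (p : ℕ) (G : Type) [Group G] : Prop :=
  (∑ᶠ (σ : Finset (Subgroup G))
      (_ : σ.Nonempty ∧ IsChain (· ≤ ·) (σ : Set (Subgroup G)) ∧
            ∀ P ∈ σ, IsPGroup p P ∧ P ≠ ⊥),
      (-1 : ℤ) ^ (σ.card - 1) *
        (Nat.card {x : G × G // x.1 * x.2 = x.2 * x.1 ∧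
            ∀ P ∈ σ, x.1 ∈ Subgroup.normalizer (P : Set G) ∧
              x.2 ∈ Subgroup.normalizer (P : Set G)} : ℤ))
    = (Nat.card G : ℤ) *
      ((Nat.card (ConjClasses G) : ℤ) -
        (Nat.card {f : G → ℂ // ∃ n : ℕ, ∃ ρ : G →* Matrix (Fin n) (Fin n) ℂ,
            0 < n ∧ p ^ ((Nat.card G).factorization p) ∣ n ∧
            (∀ W : Submodule ℂ (Fin n → ℂ),
                (∀ g : G, ∀ v ∈ W, (ρ g).mulVec v ∈ W) → W = ⊥ ∨ W = ⊤) ∧
            f = fun g => (ρ g).trace} : ℤ))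

/-- `D` is abelian and `x ^ p = 1` has at most `p ^ n` solutions in `D`.  For a finite `p`-group:
`D` is abelian of rank at most `n`. -/
def Ab (p n : ℕ) {G : Type} [Group G] (D : Subgroup G) : Prop :=
  (∀ x ∈ D, ∀ y ∈ D, x * y = y * x) ∧ Nat.card {x : D // x ^ p = 1} ≤ p ^ n

/-- A series of normal subgroups from `A` to `B`.  In each step either the index is a power of
`p`, or every `p`-subgroup of the larger term that meets the smaller term trivially is abelian of
rank at most two. -/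
def Ser (p : ℕ) {G : Type} [Group G] (A B : Subgroup G) : Prop :=
  ∃ (r : ℕ) (s : ℕ → Subgroup G), s 0 = A ∧ s r = B ∧ ∀ i < r, (s i).Normal ∧
    s i ≤ s (i + 1) ∧ ((∃ k, (s i).relIndex (s (i + 1)) = p ^ k) ∨
      ∀ D : Subgroup G, IsPGroup p D → D ≤ s (i + 1) → D ⊓ s i = ⊥ → Ab p 2 D)

/-- For every prime `p` and every `n` there is `N` such that the Knörr–Robinson identity holds
for every finite group `G` with a normal subgroup `K` and a series `Ser` from `K` to `G` such that,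
for every elementary abelian `p`-subgroup `Q` meeting `K` trivially, every subgroup
`H = ⟨a, b⟩ C_K(Q)` of `N_G(Q)` with `[a, b] ∈ K` and `|H : H ∩ K|` prime to `p` is a direct
product of groups `L` each of which satisfies the identity or has a normal subgroup `R` with a
series `Ser` from `1` to `R` such that every Sylow `p`-subgroup of the centraliser of an element
of `L` that meets `R` trivially is abelian of rank at most `n`, and has rank at most two or order
greater than `N`. -/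
theorem result :
    ∀ (p : ℕ), p.Prime → ∀ n : ℕ, ∃ N : ℕ, ∀ (G : Type) [Group G] [Finite G]
      (K : Subgroup G) [K.Normal], Ser p K ⊤ →
      (∀ Q H : Subgroup G, (∀ x ∈ Q, x ^ p = 1) → (∀ x ∈ Q, ∀ y ∈ Q, x * y = y * x) →
        Q ⊓ K = ⊥ → (∃ a b : G, a * b * a⁻¹ * b⁻¹ ∈ K ∧
          H = Subgroup.closure {a, b} ⊔ K ⊓ Subgroup.centralizer (Q : Set G)) →
        H ≤ Subgroup.normalizer (Q : Set G) → ¬ p ∣ K.relIndex H →
        ∃ (m : ℕ) (L : Fin m → Type) (_ : ∀ i, Group (L i)) (_ : ∀ i, Finite (L i)),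
          Nonempty (H ≃* ∀ i, L i) ∧ ∀ i, KRC p (L i) ∨
            ∃ R : Subgroup (L i), R.Normal ∧ Ser p ⊥ R ∧
              ∀ (x : L i) (D : Sylow p (Subgroup.centralizer {x})),
                (D : Subgroup (Subgroup.centralizer {x})).map (Subgroup.centralizer {x}).subtype ⊓
                  R = ⊥ → Ab p n (D : Subgroup (Subgroup.centralizer {x})) ∧
                  (Ab p 2 (D : Subgroup (Subgroup.centralizer {x})) ∨
                    N < Nat.card (D : Subgroup (Subgroup.centralizer {x})))) →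
      KRC p G := by
  intro p hp n
  obtain ⟨N, hN⟩ := Ip.KR_main4 p hp n
  refine ⟨N, fun G _ _ K _ hK h => (Ip.KR_iff p G).1 (hN G K hK fun Q H h1 h2 h3 h4 h5 h6 => ?_)⟩
  obtain ⟨m, L, _, _, e, hL⟩ := h Q H h1 h2 h3 h4 h5 h6
  exact ⟨m, L, _, inferInstance, e, fun i => (hL i).imp_left (Ip.KR_iff p _).2⟩

/-- The reduction: if there is a series from `K` to `G` and the identity holds for all subgroups
`H = ⟨a, b⟩ C_K(Q)` of `N_G(Q)` with `[a, b] ∈ K` and `|H : H ∩ K|` prime to `p`, where `Q` runs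
through the elementary abelian `p`-subgroups meeting `K` trivially, then it holds for `G`. -/
theorem reduction (p : ℕ) (hp : p.Prime) (G : Type) [Group G] [Finite G] (K : Subgroup G)
    [K.Normal] (hK : Ser p K ⊤)
    (h : ∀ Q H : Subgroup G, (∀ x ∈ Q, x ^ p = 1) → (∀ x ∈ Q, ∀ y ∈ Q, x * y = y * x) →
      Q ⊓ K = ⊥ → (∃ a b : G, a * b * a⁻¹ * b⁻¹ ∈ K ∧
        H = Subgroup.closure {a, b} ⊔ K ⊓ Subgroup.centralizer (Q : Set G)) →
      H ≤ Subgroup.normalizer (Q : Set G) → ¬ p ∣ K.relIndex H → KRC p H) : KRC p G :=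
  have : Fact p.Prime := ⟨hp⟩
  (Ip.KR_iff p G).1 (Ip.reduction4 K hK
    fun Q H h1 h2 h3 h4 h5 h6 => (Ip.KR_iff p _).2 (h Q H h1 h2 h3 h4 h5 h6))

/-- The identity for every finite group with a series from `1` to `G`. -/
theorem series (p : ℕ) (hp : p.Prime) (G : Type) [Group G] [Finite G]
    (h : Ser p (⊥ : Subgroup G) ⊤) : KRC p G :=
  have : Fact p.Prime := ⟨hp⟩
  let _ : Fintype G := Fintype.ofFinite G
  (Ip.KR_iff p G).1 (Ip.KR_of_rel h ((Ip.rel_iff _).2 Ip.AB_top))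

/-- The identity for every finite group with a normal series each of whose factors is a `p`-group
or has abelian Sylow `p`-subgroups generated by two elements. -/
theorem rank_two (p : ℕ) (hp : p.Prime) (G : Type) [Group G] [Finite G] (r : ℕ)
    (s : ℕ → Subgroup G) [∀ i, (s i).Normal] (h0 : s 0 = ⊥) (hr : s r = ⊤)
    (hs : ∀ i < r, s i ≤ s (i + 1) ∧ (IsPGroup p (s (i + 1) ⧸ (s i).subgroupOf (s (i + 1))) ∨
      ∃ S : Sylow p (s (i + 1) ⧸ (s i).subgroupOf (s (i + 1))),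
        (∀ x ∈ S.toSubgroup, ∀ y ∈ S.toSubgroup, x * y = y * x) ∧
          Group.rank S.toSubgroup ≤ 2)) : KRC p G :=
  have : Fact p.Prime := ⟨hp⟩
  series p hp G ⟨r, s, h0, hr, fun i hi => ⟨inferInstance, (hs i hi).1, (hs i hi).2.imp
    (fun h => h.exists_card_eq) fun ⟨S, h1, h2⟩ => Ip.abR_of_sylow S h1 h2⟩⟩

/-- The case of a `p`-solvable quotient and of factors with abelian Sylow subgroups. -/
theorem solvable_quotient :
    ∀ (p : ℕ), p.Prime → ∀ n : ℕ, ∃ N : ℕ, ∀ (G : Type) [Group G] [Finite G]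
      (K : Subgroup G) [K.Normal],
      (∃ (r : ℕ) (s : ℕ → Subgroup G), s 0 = K ∧ s r = ⊤ ∧ ∀ i < r, (s i).Normal ∧
        s i ≤ s (i + 1) ∧ ((∃ k, (s i).relIndex (s (i + 1)) = p ^ k) ∨
          ¬ p ∣ (s i).relIndex (s (i + 1)))) →
      (∀ Q H : Subgroup G, (∀ x ∈ Q, x ^ p = 1) → (∀ x ∈ Q, ∀ y ∈ Q, x * y = y * x) →
        Q ⊓ K = ⊥ → K ⊓ Subgroup.centralizer (Q : Set G) ≤ H →
        H ≤ Subgroup.normalizer (Q : Set G) → ¬ p ∣ K.relIndex H →
        ∃ (m : ℕ) (L : Fin m → Type) (_ : ∀ i, Group (L i)) (_ : ∀ i, Finite (L i)),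
          Nonempty (H ≃* ∀ i, L i) ∧
          ∀ i, ∃ S : Sylow p (L i),
            (∀ x ∈ (S : Subgroup (L i)), ∀ y ∈ (S : Subgroup (L i)), x * y = y * x) ∧
            Group.rank (S : Subgroup (L i)) ≤ n ∧
            ∀ (x : L i) (D : Sylow p (Subgroup.centralizer {x})),
              Group.rank (D : Subgroup (Subgroup.centralizer {x})) ≤ 2 ∨
                N < Nat.card (D : Subgroup (Subgroup.centralizer {x}))) → KRC p G := by
  intro p hp n
  have : Fact p.Prime := ⟨hp⟩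
  obtain ⟨N, hN⟩ := result p hp n
  refine ⟨N, fun G _ _ K _ ⟨r, s, h0, hr, hs⟩ h => hN G K ⟨r, s, h0, hr, fun i hi => ?_⟩
    fun Q H h1 h2 h3 ⟨_, _, _, h4⟩ h5 h6 => ?_⟩
  · obtain ⟨a, b, c⟩ := hs i hi
    exact ⟨a, b, c.imp_right Ip.abR_of_reg⟩
  obtain ⟨m, L, _, _, e, hL⟩ := h Q H h1 h2 h3 (le_sup_right.trans h4.ge) h5 h6
  refine ⟨m, L, _, inferInstance, e, fun i => Or.inr ⟨⊥, inferInstance,
    ⟨0, fun _ => ⊥, rfl, rfl, fun _ h => absurd h (Nat.not_lt_zero _)⟩, fun x D _ => ?_⟩⟩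
  obtain ⟨S, a, b, c⟩ := hL i
  have h7 := Ip.sub_of_sylow hp _ (Subgroup.centralizer {x}).subtype_injective S a b _ D.isPGroup'
  exact ⟨h7, (c x D).imp_left fun e => ⟨h7.1, Kx.om1_le_of_rank hp.pos _ h7.1 e⟩⟩

end Pool.Agent.Lib.MP_b6945b_al.Old.Hyperfocal
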