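import Pool.Agent.Lib.MP_b6945b_al.Kx.ZRel
import Pool.Agent.Lib.MP_b6945b_al.Kx.ZCy

set_option autoImplicit false

namespace Pool.Agent.Lib.MP_b6945b_al.Old.WeightMovedFactors

open Pool.Agent.Lib.MP_b6945b_al

/-- For every prime `p` and every `n` there is `N` such that Alperin's weight conjecture holds for
every `p`-block with an abelian defect group `D` generated by at most `n` elements all of whose
moved factors `D / C_D(A)` (`A` a set of inertial elements) have order greater than `N`, or are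
generated by two elements, or have a nontrivial invariant subgroup with a free inertial action.
The sum runs over all `p`-subgroups `P`, the trivial one included; the factor `|N(P)|` makes it
`|G|` times the number of conjugacy classes of weights of the block. -/
theorem kept :
    ∀ (p : ℕ), p.Prime → ∀ n : ℕ, ∃ N : ℕ, ∀ (G : Type) [Group G] [Finite G]
      (M : Ideal (integralClosure ℤ ℂ)), M.IsMaximal → (p : integralClosure ℤ ℂ) ∈ M →
      ∀ (χ : G → ℂ), IsIrrChar χ →
      ∀ (D : Subgroup G), IsDefectGroup p M χ D → (∀ x ∈ D, ∀ y ∈ D, x * y = y * x) →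
      Group.rank D ≤ n → RelFactors M χ D N →
      ∑ᶠ (P : Subgroup G) (_ : IsPGroup p P),
        Nat.card (Subgroup.normalizer (P : Set G)) * wInd p M χ P =
          Nat.card G * lInd p M χ ⊤ :=
  Kx.awc_of_gf3

/-- The case of all abelian defect groups of rank at most two. -/
theorem rank_two :
    ∀ (p : ℕ), p.Prime → ∀ (G : Type) [Group G] [Finite G]
      (M : Ideal (integralClosure ℤ ℂ)), M.IsMaximal → (p : integralClosure ℤ ℂ) ∈ M →
      ∀ (χ : G → ℂ), IsIrrChar χ →
      ∀ (D : Subgroup G), IsDefectGroup p M χ D → (∀ x ∈ D, ∀ y ∈ D, x * y = y * x) →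
      Group.rank D ≤ 2 →
      ∑ᶠ (P : Subgroup G) (_ : IsPGroup p P),
        Nat.card (Subgroup.normalizer (P : Set G)) * wInd p M χ P =
          Nat.card G * lInd p M χ ⊤ :=
  fun p hp G _ _ M hM hpM χ hχ D hD hc h2 => Kx.awc_two p hp G M hM hpM χ hχ D hD hc h2

/-- The case in which every direct factor of `D` has rank at most two or order greater than `N`,
whatever the inertial quotient. -/
theorem direct_factors :
    ∀ (p : ℕ), p.Prime → ∀ n : ℕ, ∃ N : ℕ, ∀ (G : Type) [Group G] [Finite G]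
      (M : Ideal (integralClosure ℤ ℂ)), M.IsMaximal → (p : integralClosure ℤ ℂ) ∈ M →
      ∀ (χ : G → ℂ), IsIrrChar χ →
      ∀ (D : Subgroup G), IsDefectGroup p M χ D → (∀ x ∈ D, ∀ y ∈ D, x * y = y * x) →
      Group.rank D ≤ n →
      (∀ Z F : Subgroup G, Z ⊓ F = ⊥ → Z ⊔ F = D → Group.rank F ≤ 2 ∨ N < Nat.card F) →
      ∑ᶠ (P : Subgroup G) (_ : IsPGroup p P),
        Nat.card (Subgroup.normalizer (P : Set G)) * wInd p M χ P =
          Nat.card G * lInd p M χ ⊤ := by
  intro p hp n
  obtain ⟨N, h⟩ := Kx.awc_of_gf2 p hp n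
  exact ⟨N, fun G _ _ M hM hpM χ hχ D hD hc hn hl => h G M hM hpM χ hχ D hD hc hn (Or.inr hl)⟩

/-- The case in which the inertial quotient acts freely on a nontrivial invariant subgroup. -/
theorem free_subgroup :
    ∀ (p : ℕ), p.Prime → ∀ (G : Type) [Group G] [Finite G]
      (M : Ideal (integralClosure ℤ ℂ)), M.IsMaximal → (p : integralClosure ℤ ℂ) ∈ M →
      ∀ (χ : G → ℂ), IsIrrChar χ →
      ∀ (D : Subgroup G), IsDefectGroup p M χ D → (∀ x ∈ D, ∀ y ∈ D, x * y = y * x) →
      RelInertia M χ D →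
      ∑ᶠ (P : Subgroup G) (_ : IsPGroup p P),
        Nat.card (Subgroup.normalizer (P : Set G)) * wInd p M χ P =
          Nat.card G * lInd p M χ ⊤ := by
  intro p hp G _ _ M hM hpM χ hχ D hD hc h
  obtain ⟨N, hN⟩ := kept p hp (Group.rank D)
  exact hN G M hM hpM χ hχ D hD hc le_rfl (Kx.relFactors_of_relInertia hc h)

/-- The case of a cyclic inertial quotient of prime power order. -/
theorem cyclic_inertia :
    ∀ (p : ℕ), p.Prime → ∀ (G : Type) [Group G] [Finite G]
      (M : Ideal (integralClosure ℤ ℂ)), M.IsMaximal → (p : integralClosure ℤ ℂ) ∈ M →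
      ∀ (χ : G → ℂ), IsIrrChar χ →
      ∀ (D : Subgroup G), IsDefectGroup p M χ D → D ≠ ⊥ → (∀ x ∈ D, ∀ y ∈ D, x * y = y * x) →
      (∀ ψ : Subgroup.centralizer (D : Set G) → ℂ, IsIrrChar ψ →
        (∀ x : G, InIdeal M (omega ψ {h | IsConj x (h : G)} - omega χ {g | IsConj x g})) →
        ∃ (s : G) (q k : ℕ), q.Prime ∧ q ≠ p ∧ s ∈ Subgroup.normalizer (D : Set G) ∧
          s ^ q ^ k ∈ Subgroup.centralizer (D : Set G) ∧ ∀ t, Inert M D ψ t →
            ∃ i : ℕ, (s ^ i)⁻¹ * t ∈ Subgroup.centralizer (D : Set G)) →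
      ∑ᶠ (P : Subgroup G) (_ : IsPGroup p P),
        Nat.card (Subgroup.normalizer (P : Set G)) * wInd p M χ P =
          Nat.card G * lInd p M χ ⊤ := by
  intro p hp G _ _ M hM hpM χ hχ D hD h0 hc h
  have : Fact p.Prime := ⟨hp⟩
  exact free_subgroup p hp G M hM hpM χ hχ D hD hc
    (Kx.relInertia_of_cyclic hp (St.IsDefectGroup.isPGroup' hD) h0 hc h)

end Pool.Agent.Lib.MP_b6945b_al.Old.WeightMovedFactors
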